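import Pool.Agent.Run7.h334.CQ.Abs

set_option autoImplicit false

/-!
# The nef cone conjecture for klt Calabi-Yau pairs: finite quotients and products

Let `(X, Δ)` be a klt Calabi-Yau pair (`X` need not be `ℚ`-factorial) and let `H` be a finite group of
automorphisms of `X` which preserve `Δ`. It may have fixed points and reflections. Let `Y = X / H`
and let `Δ'` be the divisor on `Y` such that `K_X + Δ` is the pull back of `K_Y + Δ'`. Then `(Y, Δ')`
is a klt Calabi-Yau pair, and the support of `Δ'` is the union of the image of the support of `Δ` and
of the branch divisor. The theorem says that the conjecture of Q1 passes from `(X, Δ)` to `(Y, Δ')`,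
and to products for which `N¹(X_1 × X_2)` is the direct sum of `N¹(X_1)` and `N¹(X_2)` (for instance if
one of the factors has irregularity `0`). So it holds for all pairs which can be constructed by
products and finite quotients from pairs of dimension two (Totaro), from abelian varieties and from
hyperkähler manifolds, for instance for all quotients of `S_1 × ... × S_n` by finite groups, where the
`S_i` are klt Calabi-Yau pairs of dimension two with `q(S_i) = 0` for `i ≥ 2`.

The kernel `K` of the action of `Aut(X, Δ)` on `N¹(X)` contains the abelian variety `Aut⁰(X, Δ)` as a
subgroup of finite index. The proof: an automorphism `g` which commutes with `H` modulo `K` need not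
normalise `H`; but as `H¹(H, Aut⁰(X, Δ))` is finite, the homomorphisms `h ↦ g h g⁻¹` from `H` to `K H`
form finitely many classes modulo conjugation by elements of `K`. Only finitely many elements of the
image of `Aut(X, Δ)` in `GL(N¹(X))` fix a class in the interior of `Nef(X)` which is in a given finitely
generated cone. Both facts together show that the centraliser of `H` in `Aut(X, Δ)`, which acts on
`Y`, moves all ample classes of `Y` into one of finitely many rational polyhedral cones.

`IsCone`, `IsLattice`, `HasDegree`, `IsConePair`, `HasFundDomain`, `IsLin`, `IsLinIso`,
`IsLinAction`, `SmallKernel`, `Variety`, `ConeConj`, `Preserves`, `IsGood`, `IsPullBack`,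
`IsQuotient` and `IsProduct` are defined in `Pool.Agent.Run7.h334.CQ.Defs`; `Gen` in
`Pool.Agent.Run7.h334.CQ.AbsDefs`; `Small` in `Pool.Agent.Run7.h334.CQ.Lift`; `cone` in
`Pool.Agent.Y167.ConeDef`.
-/

open Run7.h334.CQ Run7.h334.CQ.Variety

/-- Let `V` be the class of all klt Calabi-Yau pairs `(X, Δ)`. For such a pair let `D X` consist of
`N = N¹(X)`, the group `L` of the classes of line bundles, the nef cone `C`, the effective cone `E`, and
the group `G = Aut(X, Δ)` of the automorphisms which map the support of `Δ` to itself, acting on `N` by
`g ↦ (g⁻¹)^*`.

(1) If `(X, Δ)` satisfies the cone conjecture then so does its quotient `(Y, Δ')` by every finite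
subgroup `H` of `G` (whose elements preserve `Δ`): `Nef^e(Y)` has a rational polyhedral fundamental
domain for the action of `Aut(Y, Δ')`.

(2) The cone conjecture passes to products.

(3) If all pairs in `F` satisfy the cone conjecture then so do all pairs in the smallest class which
contains `F` and is closed under products and finite quotients. -/
theorem Pool.Agent.Results.MP_9f99c5_ag.QuotientsAndProducts.result {V : Type}
    {D : V → Variety} (hD : ∀ X, (D X).IsGood) :
    (∀ (X Y : V) (H : Subgroup (D X).G), Finite H → (D X).IsQuotient H (D Y) →
      (D X).ConeConj → (D Y).ConeConj) ∧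
    (∀ (X : V) (I : Type) (S : I → V), Finite I → (D X).IsProduct (fun i => D (S i)) →
      (∀ i, (D (S i)).ConeConj) → (D X).ConeConj) ∧
    ∀ F : Set V, (∀ S ∈ F, (D S).ConeConj) → ∀ X, Gen D F X → (D X).ConeConj := by
  refine ⟨fun X Y H hH hq h => quotient (hD X) (hD Y) hH hq h, fun X I S hI hp h => ?_,
    fun F hF X hX => Fine.gen (fun X => (hD X).fine) hF hX⟩
  have := Fintype.ofFinite I
  exact product (hD X) (fun i => hD (S i)) hp h
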