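import Pool.Agent.Run7.h323.CC.Fin
import Pool.Agent.Y167.FromFib

set_option autoImplicit false

/-!
# The nef cone conjecture for klt pairs on toric bundles over quotients of complex tori

Let `X = V / Γ` be a quotient of a complex torus by any finite group, of any dimension (the group may
contain reflections). Let `Y → X` be a toric bundle: the fibre is the smooth complete toric variety
with the rays `u i`, and the twists are given by arbitrary line bundles `c i` on `X`. Suppose that `Y`
is projective. Let `(Y, Δ)` be a Kawamata log terminal pair with real coefficients, such that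
`K_Y + Δ` is numerically trivial. The components of `Δ` are arbitrary divisors on `Y`. The theorem
says that the cone `Nef^e(Y)` of nef and effective classes has a rational polyhedral fundamental
domain for the action of `Aut(Y, Δ)`, that it is the convex hull `Nef^+(Y)` of the rational nef
classes, and that its faces form finitely many orbits.

The proof: the coefficients of the sections which define the components of `Δ` are sections of line
bundles on `X`. By the integrability condition at the points of the torus invariant strata, for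
each direction in the lattice of the fan some exponents are on the negative side. Since `K_Y + Δ` is
numerically trivial and the Chern forms of the coefficients are semidefinite, the Chern forms of the
coefficients and of all line bundles `∏ c_i ^ ⟨q, u_i⟩` vanish in the directions parallel to all
mirrors of `Γ`, and these line bundles are trivial on a sublattice of finite index. Hence the
automorphisms of `X` given by units of a subgroup of finite index lift to `Y`, and by Liouville's
theorem the lifts fix all components of `Δ`. The cone of nef classes is the product of a rational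
polyhedral cone, fixed by these automorphisms, and of a cone of semidefinite forms, on which the units
act; for this cone the reduction theory of the starting repository (`Pool.Agent.Y167`) gives finitely
many generators of a covering. A Dirichlet domain is a fundamental domain.

The definitions for toric bundles are in `Pool.Agent.Run7.h323.CC.Defs` (`N1Y`, `integral`, `IsSum`,
`nefCone`, `effective`, `effCone`, `IsAmple`, `EffDivY`, `NumTrivialY`, `IsKltY`, `Fixes`),
`Pool.Agent.Run7.h323.CC.Stm` (`NY`, `integralY`, `rationalY`, `nefY`, `effY`, `IsProjective`,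
`Aff`, `Elt`,
`IsConj`, `IsAut`, `resForm`, `IsPull`, `HasDomain`, `FiniteFaces`, `HasAll`), `Pool.Agent.Run7.h323.TQ.Defs` (`IsMax`) and
`Pool.Agent.Q47.TB.Defs` (`IsSmoothFan`, `LinEquiv`, `IsSection`). In the absolute case the linear
subspace `E` of `V` of the general definitions is `V` itself, embedded by the identity map. The others
are in `Pool.Agent.W594.SYZ.Defs2`, `Pool.Agent.W594.SYZ.TQDefs`, `Pool.Agent.TH735.AQ.MirDefs`,
`Pool.Agent.Y167.Defs`, `Pool.Agent.Y167.Stm`, `Pool.Agent.Y167.StmFace` and
`Pool.Agent.Y167.ConeDef`.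
-/

namespace Pool.Agent.Results.MP_9f99c5_ag.ToricBundles

open Pool.Agent.W594.SYZ2 Pool.Agent.TH735.AQ Q47.TB Run7.h323.CC
open Pool.Agent.Y167 (AffGrp)
open Pool.Agent.Y167.CC (LinGrp Preserves)

section

variable {V : Type*} [NormedAddCommGroup V] [NormedSpace ℂ V] {Γ : AffGrp V} {ι κ : Type*}
  [Fintype ι] [Fintype κ] {n : ℕ}

/-- The space `N^1(Y)`. -/
abbrev NS (u : ι → Fin n → ℤ) (Γ : AffGrp V) : Type _ := NY u Γ (LinearMap.id : V →ₗ[ℂ] V)

/-- The nef cone. -/
def Nef (u : ι → Fin n → ℤ) (S : Set (Set ι)) (Γ : AffGrp V) (Hc : ι → V → V → ℂ) :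
    Set (NS u Γ) := nefY u LinearMap.id S Hc Γ

/-- The cone `Nef^e(Y)` of nef and effective classes. -/
def nefEff (u : ι → Fin n → ℤ) (S : Set (Set ι)) (c : ι → LineBundle Γ) (Hc : ι → V → V → ℂ) :
    Set (NS u Γ) := Nef u S Γ Hc ∩ effY u LinearMap.id c

/-- The cone `Nef^+(Y)`: the convex hull of the rational nef classes. -/
def nefPlus (u : ι → Fin n → ℤ) (S : Set (Set ι)) (Γ : AffGrp V) (Hc : ι → V → V → ℂ) :
    Set (NS u Γ) := convexHull ℝ (Nef u S Γ Hc ∩ rationalY u LinearMap.id Γ)

/-- `g` is the pullback on `N^1(Y)` by an automorphism of `Y` which is induced by a map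
`(v, x) ↦ (f v, φ(v) x)` and maps the components of `Δ` to themselves. -/
def IsPullY {u : ι → Fin n → ℤ} {c : ι → LineBundle Γ} (Hc : ι → V → V → ℂ) (Δ : EffDivY u c κ)
    (g : Lin1 u Γ (LinearMap.id : V →ₗ[ℂ] V)) : Prop :=
  ∃ f φ, IsAut u c f φ ∧ Fixes Δ f φ ∧ IsPull Hc f g

/-- `𝒢` is a group of linear automorphisms of `N^1(Y)` which preserves the integral classes and the
nef cone, and which contains the pullbacks by all automorphisms of `Y` which are induced by maps
`(v, x) ↦ (f v, φ(v) x)` and map the components of `Δ` to themselves. The image of `Aut(Y, Δ)` has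
these properties, also if `Aut(Y, Δ)` is defined as the group of the automorphisms which map the
support of `Δ` to itself. -/
structure IsAutGroup {u : ι → Fin n → ℤ} (S : Set (Set ι)) {c : ι → LineBundle Γ}
    (Hc : ι → V → V → ℂ) (Δ : EffDivY u c κ) (𝒢 : LinGrp (NS u Γ)) : Prop where
  int : Preserves 𝒢 (integralY u LinearMap.id Γ)
  nef : Preserves 𝒢 (Nef u S Γ Hc)
  aff : HasAll 𝒢 (IsPullY Hc Δ)

end

/-- Let `X = V / Γ` be a torus quotient and `Y → X` the toric bundle given by the smooth complete fan
with the rays `u i` and the cones `S` and by the line bundles `c i` on `X` with the Chern forms `Hc i`.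
Suppose that `Y` is projective. Let `Δ` be an effective divisor with real coefficients on `Y` such
that `K_Y + Δ` is numerically trivial and `(Y, Δ)` is Kawamata log terminal (it is enough that this
holds for the restriction to one fibre of `Y → X`). There is a finite set `T` of integral classes such
that the cone spanned by `T` is contained in `Nef^e(Y)` and is a fundamental domain for the action of
`𝒢` on `Nef^e(Y)`. Moreover `Nef^e(Y)` is the convex hull `Nef^+(Y)` of the rational nef classes, and
its faces form finitely many orbits under `𝒢`. -/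
theorem result {V : Type*} [NormedAddCommGroup V] [NormedSpace ℂ V] [FiniteDimensional ℂ V]
    (Γ : AffGrp V) (hΓ : IsTorusQuotient Γ)
    {ι κ : Type*} [Fintype ι] [Fintype κ] {n : ℕ} (u : ι → Fin n → ℤ) (S : Set (Set ι))
    (hS : IsSmoothFan u S) (c : ι → LineBundle Γ) (Hc : ι → V → V → ℂ)
    (hc : ∀ i, IsChernForm (c i) (Hc i)) (hproj : IsProjective u S Γ Hc)
    (Δ : EffDivY u c κ) (hΔ : NumTrivialY Hc (LinearMap.id : V →ₗ[ℂ] V) Δ) (hklt : IsKltY S Δ)
    (𝒢 : LinGrp (NS u Γ)) (h𝒢 : IsAutGroup S Hc Δ 𝒢) :
    HasDomain 𝒢 (integralY u LinearMap.id Γ) (nefEff u S c Hc) ∧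
      nefEff u S c Hc = nefPlus u S Γ Hc ∧ FiniteFaces 𝒢 (nefEff u S c Hc) := by
  have hP : Pre Γ (LinearMap.id : V →ₗ[ℂ] V) :=
    ⟨hΓ, fun _ _ h => h, fun γ _ e => ⟨γ.linear e, rfl⟩, hΓ.span_top⟩
  obtain ⟨σ, hσ, -⟩ := Run7.h323.TQ.exists_max hS.empty_mem
  refine mainNY hS hP hc hproj hΔ hklt (𝒯 := {σ | Run7.h323.TQ.IsMax S σ}) ⟨σ, hσ⟩
    (fun τ hτ => ⟨τ, hτ, subset_rfl⟩) 𝒢 h𝒢.int h𝒢.nef ?_
  rintro g ⟨f, φ, h1, -, h3, h4⟩
  exact h𝒢.aff g ⟨f, φ, h1, h3, h4⟩

end Pool.Agent.Results.MP_9f99c5_ag.ToricBundles
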